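import Pool.Agent.Lib.MP_ec260d_ntR.TMain

/-!
# MP_ec260d_nt, Q1: almost all indices satisfy no relation of bounded complexity with `d` free parameters in `d + 1` blocks

`zeroCount T = N(T)` is the number of zeros `ρ` of `ζ` with `0 < Im ρ ≤ T`, with multiplicity, and `ordinate n = γ_n` is the `n`-th
ordinate, with multiplicity: the infimum of the `T` with `N(T) ≥ n`.

For all `d`, `k`, `D`, `H`, `ε > 0`, `C`, `K` there are `M` and `N₀` such that the following holds for all `N ≥ N₀`, all shifts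
`t(j, i)`, `0 ≤ j ≤ d`, `0 ≤ i ≤ k`, integers in `[0, C N]` with pairwise distances at least `M`, and all finite sets
`Q₀, …, Q_d` of at most `H` complex polynomials `q(v, X)` in `v = (v₁, …, v_d)` and `X = (X₀, …, X_k)`, of total degree at most `D`
(the shifts and the polynomials may depend on `N`).  For all but at most `ε N` of the `n` in `[1, N]` there are no `v ∈ ℂ^d` and
complex numbers `x(j, i)` with `|x(j, i) - γ_(n + t(j, i))| ≤ K / log N` for all `j`, `i`, such that for each `j` some `q ∈ Q_j`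
satisfies `q(v, X) ≠ 0` (as a polynomial in `X`) and `q(v, x(j, 0), …, x(j, k)) = 0`.

* `d = 0`, `K = 0`, `Q₀ = {P}`: for all shifts with gaps at least `M` the relation `P(γ_(n + t₀), …, γ_(n + t_k)) = 0` holds for at
  most `ε N` of the `n` in `[1, N]`.
* `k = 0`: for almost all `n` the `d + 1` ordinates `γ_(n + t₀), …, γ_(n + t_d)` are not all zeros of polynomials `q(v, X)` of bounded
  complexity for one and the same `v ∈ ℂ^d`.
-/

namespace Pool.Agent.Results.MP_ec260d_nt.AllShifts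

open Pool.Agent.Lib.MP_ec260d_nt (ordinate)

open Classical in
theorem result (d k D H : ℕ) (ε C K : ℝ) (hε : 0 < ε) : ∃ M N₀ : ℕ, ∀ N : ℕ, N₀ ≤ N →
    ∀ t : Fin (d + 1) → Fin (k + 1) → ℕ, (∀ j i, (t j i : ℝ) ≤ C * N) →
      (∀ j i j' i', (j, i) ≠ (j', i') → (M : ℝ) ≤ |(t j i : ℝ) - t j' i'|) →
      ∀ Q : Fin (d + 1) → Finset (MvPolynomial (Fin d ⊕ Fin (k + 1)) ℂ),
        (∀ j, (Q j).card ≤ H ∧ ∀ q ∈ Q j, q.totalDegree ≤ D) →
        ((((Finset.Icc 1 N).filter (fun n : ℕ => ∃ (v : Fin d → ℂ) (x : Fin (d + 1) → Fin (k + 1) → ℂ),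
          (∀ j i, ‖x j i - ((ordinate (n + t j i) : ℝ) : ℂ)‖ ≤ K / Real.log N) ∧
          ∀ j, ∃ q ∈ Q j, (∃ z : Fin (k + 1) → ℂ, MvPolynomial.eval (Sum.elim v z) q ≠ 0) ∧
            MvPolynomial.eval (Sum.elim v (x j)) q = 0)).card : ℕ) : ℝ) ≤ ε * N :=
  Pool.Agent.Lib.MP_ec260d_ntR.thmT d k D H ε C K hε

end Pool.Agent.Results.MP_ec260d_nt.AllShifts
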