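import Pool.Agent.Lib.MP_ec260d_ntC.FinC
import Pool.Agent.Lib.MP_ec260d_ntC.HX
import Pool.Agent.Lib.MP_ec260d_ntC.HG

/-!
# MP_ec260d_nt, Q1 along the heat flow: the zeros of the de Bruijn-Newman functions

Let `ξ` be Riemann's xi function and let `H_t`, `t` real, be the functions of de Bruijn and Newman:
`H_0 z = ξ (1/2 + i z / 2) / 8` and `H_t = exp (-t d²/dz²) H_0`, i.e. `H_t z = ∫_0^∞ e^{t u²} Φ(u) cos (z u) du` (theorem `H_eq`).
The zeros of `H_0` are the numbers `z = 2 γ + i (1 - 2 β)`, `β + i γ` a nontrivial zero of the zeta function.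

`result`: for every countable subfield `K` of `ℂ` there is a countable set `X` of reals such that for every real `t ∉ X` the family
which consists of `t`, of the real parts of the zeros `z` of `H_t` with `Re z > 0`, `Im z ≥ 0`, and of the imaginary parts of the
zeros `z` with `Re z ≥ 0`, `Im z > 0`, is algebraically independent over `K`.  (The zeros are symmetric with respect to both axes.)
-/

namespace Pool.Agent.Results.MP_ec260d_nt.DeBruijnNewman

open Complex Set MeasureTheory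

/-- Riemann's xi function `s (s - 1) π^(-s/2) Γ(s/2) ζ(s) / 2`, an entire function -/
noncomputable def xi (s : ℂ) : ℂ := (s * (s - 1) * completedRiemannZeta₀ s + 1) / 2

/-- the de Bruijn-Newman function `H_t = exp (-t d²/dz²) H_0`, `H_0 z = xi (1/2 + i z/2) / 8`, written as a Gaussian average:
`H_t z` is the expectation of `H_0 (z + i (2t)^(1/2) v)` for a standard normal variable `v` -/
noncomputable def H (t : ℝ) (z : ℂ) : ℂ := (Real.sqrt (2 * Real.pi) : ℂ)⁻¹ *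
  ∫ v : ℝ, 1 / 8 * xi (1 / 2 + I * (z + I * (2 * (t : ℂ)) ^ (1 / 2 : ℂ) * v) / 2) * cexp (-(v : ℂ) ^ 2 / 2)

/-- the function `Φ` of Riemann, Pólya and de Bruijn on the real line -/
noncomputable def Phi (u : ℝ) : ℝ :=
  ∑' n : ℕ, (2 * Real.pi ^ 2 * ((n : ℝ) + 1) ^ 4 * Real.exp (9 * u) - 3 * Real.pi * ((n : ℝ) + 1) ^ 2 * Real.exp (5 * u)) *
    Real.exp (-(Real.pi * ((n : ℝ) + 1) ^ 2 * Real.exp (4 * u)))

theorem xi_eq (s : ℂ) (h0 : s ≠ 0) (h1 : s ≠ 1) : xi s = s * (s - 1) / 2 * completedRiemannZeta s := by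
  have h2 : (1 : ℂ) - s ≠ 0 := sub_ne_zero.2 h1.symm
  rw [xi, completedRiemannZeta_eq]
  field_simp
  ring

theorem HH0_eq (z : ℂ) : Pool.Agent.Lib.MP_ec260d_ntC.HH 0 z = 1 / 8 * xi (1 / 2 + I * z / 2) := by
  rw [Pool.Agent.Lib.MP_ec260d_ntC.HX, Pool.Agent.Lib.MP_00e05b_nt.xi, xi]
  ring

theorem H_eq_HH (t : ℝ) (z : ℂ) : H t z = Pool.Agent.Lib.MP_ec260d_ntC.HH t z := by
  have hc : ((2 * (t : ℂ)) ^ (1 / 2 : ℂ)) ^ 2 = 2 * (t : ℂ) := by
    rw [← Complex.cpow_nat_mul]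
    norm_num
  have h := Pool.Agent.Lib.MP_ec260d_ntC.gauss 0 (t : ℂ) z ((2 * (t : ℂ)) ^ (1 / 2 : ℂ)) 0 hc
  rw [zero_add] at h
  rw [h, H]
  congr 1
  refine integral_congr_ae (Filter.Eventually.of_forall fun v => ?_)
  simp only [add_zero]
  rw [HH0_eq]

theorem Ph_real (u : ℝ) : Pool.Agent.Lib.MP_ec260d_ntC.Ph (u : ℂ) = (Phi u : ℂ) := by
  unfold Pool.Agent.Lib.MP_ec260d_ntC.Ph Phi
  rw [Complex.ofReal_tsum]
  refine tsum_congr fun n => ?_
  unfold Pool.Agent.Lib.MP_ec260d_ntC.phn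
  push_cast
  ring

/-- the usual definition -/
theorem H_eq (t : ℝ) (z : ℂ) : H t z =
    ∫ u in Ioi (0 : ℝ), cexp ((t : ℂ) * (u : ℂ) ^ 2) * (Phi u : ℂ) * Complex.cos (z * u) := by
  rw [H_eq_HH]
  unfold Pool.Agent.Lib.MP_ec260d_ntC.HH
  refine integral_congr_ae (Filter.Eventually.of_forall fun u => ?_)
  simp only
  rw [Ph_real]

theorem result (K : Subfield ℂ) (hK : (K : Set ℂ).Countable) : ∃ X : Set ℝ, X.Countable ∧
    ∀ t : ℝ, t ∉ X → AlgebraicIndependent K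
      (fun o : Option ({z : ℂ // H t z = 0 ∧ 0 < z.re ∧ 0 ≤ z.im} ⊕
          {z : ℂ // H t z = 0 ∧ 0 ≤ z.re ∧ 0 < z.im}) =>
        o.elim (t : ℂ) (Sum.elim (fun z => ((z.1.re : ℝ) : ℂ)) (fun z => ((z.1.im : ℝ) : ℂ)))) := by
  obtain ⟨X, hX, h⟩ := Pool.Agent.Lib.MP_ec260d_ntC.finC K hK
  refine ⟨X, hX, fun t ht => ?_⟩
  have h1 := h t ht
  have h2 : Pool.Agent.Lib.MP_ec260d_ntC.HH (t : ℂ) = H t := funext fun z => (H_eq_HH t z).symm
  rw [h2] at h1
  exact h1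

end Pool.Agent.Results.MP_ec260d_nt.DeBruijnNewman
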