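import Mathlib
import Pool.Agent.Lib.MP_ec260d_ntK.OrdK

/-!
# MP_ec260d_nt, Q1: relations between ordinates whose indices are near values of homogeneous functions

`zeroCount T = N(T)` is the number of zeros `ρ` of `ζ` with `0 < Im ρ ≤ T`, with multiplicity, and `ordinate m = γ_m`
is the `m`-th ordinate, with multiplicity: the infimum of the `T` with `N(T) ≥ m`.

Let `r ≥ 1`, `k`, `D`, `J` be given, and `β ≥ 1`, `θ, κ > 0`. There are `c > 0` and `C` with the following property. Let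
`Y` be a finite set of functions `y(x₁, …, x_r) = ∑_b a_b x₁^(b₁) ⋯ x_r^(b_r)` (finite sums, `b ∈ ℝ^r`, given by the
finitely supported function `b ↦ a_b`), and `A` a finite set of complex numbers. There is a number `B` such that for all
`N ≥ 1` with

* `|Y| ≤ N^c`, `|A| ≤ N^c`,
* every `y ∈ Y` has at most `J` terms, all of them with `0 ≤ b_l ≤ β` for all `l` and `N^(-c) ≤ |a_b| ≤ N^c`, and is
  homogeneous of some degree `d = ∑_l b_l ≥ 1/β`,
* for all `y, y' ∈ Y` (equal or not), different exponents `b` of `y` and `b'` of `y'` have distance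
  `∑_l |b_l - b'_l| ≥ N^(-c)`, and different coefficients of the same monomial in `y` and `y'` (where the coefficient
  of an absent monomial is `0`) differ by at least `N^(-c)`,

there is a set `E` of at most `C N^(r - c)` elements, contained in `[0, B]` if `r = 1`, such that for all
`n ∈ [1, N]^r` outside `E`, all pairwise different `y₁, …, y_k ∈ Y`, of degrees `d₁, …, d_k`, all integers `m_i ≥ 0` with
`y_i(n) > 0` and `|m_i - y_i(n)| ≤ (n₁ + ⋯ + n_r)^(d_i - θ)` and all complex polynomials `P ≠ 0` in `r + k` variables, of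
total degree at most `D` and with coefficients in `A`, one has `P(n₁, …, n_r, γ_{m_1}, …, γ_{m_k}) ≠ 0`, and no monomial
of `P` is larger than `N^κ |P(n₁, …, n_r, γ_{m_1}, …, γ_{m_k})|` at this point in absolute value.

For instance, `Y` may consist of all forms with integer coefficients, of degree between `1` and `β` and height at most a
small power of `N`, and the `m_i` may be the positive values at `n` of polynomials whose leading forms are the `y_i`, if
`θ < 1` and the lower coefficients are bounded.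
-/

namespace Pool.Agent.Results.MP_ec260d_nt.PowerIndices

open Pool.Agent.Lib.MP_ec260d_nt

theorem result (r k D J : ℕ) (hr : 0 < r) (β θ κ : ℝ) (hβ : 1 ≤ β) (hθ : 0 < θ) (hκ : 0 < κ) :
    ∃ c C : ℝ, 0 < c ∧ ∀ (Y : Finset ((Fin r → ℝ) →₀ ℝ)) (A : Finset ℂ), ∃ B : ℕ, ∀ N : ℕ, 1 ≤ N →
      (Y.card : ℝ) ≤ (N : ℝ) ^ c → (A.card : ℝ) ≤ (N : ℝ) ^ c →
      (∀ y ∈ Y, y.support.card ≤ J ∧
        (∀ b ∈ y.support, (∀ l, 0 ≤ b l ∧ b l ≤ β) ∧ (N : ℝ) ^ (-c) ≤ |y b| ∧ |y b| ≤ (N : ℝ) ^ c) ∧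
        ∃ d, β⁻¹ ≤ d ∧ ∀ b ∈ y.support, ∑ l, b l = d) →
      (∀ y ∈ Y, ∀ y' ∈ Y,
        (∀ b ∈ y.support, ∀ b' ∈ y'.support, b ≠ b' → (N : ℝ) ^ (-c) ≤ ∑ l, |b l - b' l|) ∧
        ∀ b, y b ≠ y' b → (N : ℝ) ^ (-c) ≤ |y b - y' b|) →
        ∃ E : Finset (Fin r → ℕ), (E.card : ℝ) ≤ C * (N : ℝ) ^ ((r : ℝ) - c) ∧
          (r = 1 → ∀ n ∈ E, ∀ l, n l ≤ B) ∧
          ∀ n : Fin r → ℕ, (∀ l, 1 ≤ n l ∧ n l ≤ N) → n ∉ E →
            ∀ (y : Fin k → (Fin r → ℝ) →₀ ℝ) (d : Fin k → ℝ), Function.Injective y →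
              (∀ i, y i ∈ Y ∧ ∀ b ∈ (y i).support, ∑ l, b l = d i) →
            ∀ P : MvPolynomial (Fin r ⊕ Fin k) ℂ, P ≠ 0 → P.totalDegree ≤ D →
              (∀ α ∈ P.support, P.coeff α ∈ A) →
            ∀ m : Fin k → ℕ,
              (∀ i, 0 < ((y i).sum fun b a => a * ∏ l, (n l : ℝ) ^ b l) ∧
                |(m i : ℝ) - (y i).sum fun b a => a * ∏ l, (n l : ℝ) ^ b l| ≤
                  (∑ l, (n l : ℝ)) ^ (d i - θ)) →
              MvPolynomial.eval (Sum.elim (fun l => (n l : ℂ)) (fun i => ((ordinate (m i) : ℝ) : ℂ))) P ≠ 0 ∧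
              ∀ α : Fin r ⊕ Fin k →₀ ℕ,
                ‖P.coeff α‖ * ((∏ l, (n l : ℝ) ^ (α (.inl l))) * ∏ i, (ordinate (m i)) ^ (α (.inr i))) ≤
                (N : ℝ) ^ κ * ‖MvPolynomial.eval
                  (Sum.elim (fun l => (n l : ℂ)) (fun i => ((ordinate (m i) : ℝ) : ℂ))) P‖ :=
  Pool.Agent.Lib.MP_ec260d_ntK.ordK r k D J hr β θ κ hβ hθ hκ

end Pool.Agent.Results.MP_ec260d_nt.PowerIndices
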