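import Pool.Agent.Lib.MP_ec260d_ntR.WMain
import Pool.Agent.Lib.MP_ec260d_ntR.LinForms

/-!
# MP_ec260d_nt, Q1: windows of consecutive ordinates

`zeroCount T = N(T)` is the number of zeros `ρ` of `ζ` with `0 < Im ρ ≤ T`, with multiplicity, and `ordinate n = γ_n` is the `n`-th
ordinate, with multiplicity: the infimum of the `T` with `N(T) ≥ n`.

For all `r`, `d`, `k`, `D`, `H`, `ε > 0`, `C`, `K` there are `L`, `M` and `N₀` such that the following holds for all `N ≥ N₀`, all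
shifts `t(j, i) ≥ 0`, `0 ≤ j ≤ L`, `0 ≤ i ≤ k`, with `t(j, i) < t(j + 1, i)`, `t(L, i) ≤ C N` and `|t(j, i) - t(j', i')| ≥ M` if
`i ≠ i'`, and all finite sets `Q₀, …, Q_L` of at most `H` complex polynomials `q(u, w, X)` in `u = (u₁, …, u_r)`, `w = (w₁, …, w_d)`
and `X = (X₀, …, X_k)`, of total degree at most `D` (the shifts and the polynomials may depend on `N`).  For all but at most `ε N` of
the `n` in `[1, N]` there are no complex `r × r` matrix `A`, `y ∈ ℂ^r`, `w ∈ ℂ^d` and complex numbers `x(j, i)` with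
`|x(j, i) - γ_(n + t(j, i))| ≤ K / log N` for all `j ≤ L` and `i`, such that for each `j ≤ L` some `q ∈ Q_j` satisfies
`q(A^j y, w, X) ≠ 0` (as a polynomial in `X`) and `q(A^j y, w, x(j, 0), …, x(j, k)) = 0`.

For `k = 0` and `t(j, 0) = j` this is a statement on the windows `γ_n, …, γ_(n + L)` of consecutive ordinates.

Corollary (`linear_forms`): for every `k` there are `c, δ > 0` and `N₀` such that for all `N ≥ N₀` and all complex `a₀, …, a_k`, `b` with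
`max |a_i| ≥ 1` one has `|a₀ γ_n + ⋯ + a_k γ_(n + k) - b| ≥ δ / log N` for at least `c N` of the `n` in `[1, N]`.
-/

namespace Pool.Agent.Results.MP_ec260d_nt.Windows

open Matrix
open Pool.Agent.Lib.MP_ec260d_nt (ordinate)

open Classical in
theorem result (r d k D H : ℕ) (ε C K : ℝ) (hε : 0 < ε) : ∃ L M N₀ : ℕ, ∀ N : ℕ, N₀ ≤ N →
    ∀ t : ℕ → Fin (k + 1) → ℕ, (∀ j < L, ∀ i, t j i < t (j + 1) i) → (∀ i, (t L i : ℝ) ≤ C * N) →
      (∀ j ≤ L, ∀ j' ≤ L, ∀ i i', i ≠ i' → (M : ℝ) ≤ |(t j i : ℝ) - t j' i'|) →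
      ∀ Q : ℕ → Finset (MvPolynomial ((Fin r ⊕ Fin d) ⊕ Fin (k + 1)) ℂ),
        (∀ j ≤ L, (Q j).card ≤ H ∧ ∀ q ∈ Q j, q.totalDegree ≤ D) →
        ((((Finset.Icc 1 N).filter (fun n : ℕ => ∃ (A : Matrix (Fin r) (Fin r) ℂ) (y : Fin r → ℂ)
          (w : Fin d → ℂ) (x : ℕ → Fin (k + 1) → ℂ),
          (∀ j ≤ L, ∀ i, ‖x j i - ((ordinate (n + t j i) : ℝ) : ℂ)‖ ≤ K / Real.log N) ∧
          ∀ j ≤ L, ∃ q ∈ Q j,
            (∃ z : Fin (k + 1) → ℂ, MvPolynomial.eval (Sum.elim (Sum.elim (A ^ j *ᵥ y) w) z) q ≠ 0) ∧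
              MvPolynomial.eval (Sum.elim (Sum.elim (A ^ j *ᵥ y) w) (x j)) q = 0)).card : ℕ) : ℝ) ≤ ε * N :=
  Pool.Agent.Lib.MP_ec260d_ntR.thmW r d k D H ε C K hε

open Classical in
/-- Corollary: linear forms in consecutive ordinates. -/
theorem linear_forms (k : ℕ) : ∃ c δ : ℝ, 0 < c ∧ 0 < δ ∧ ∃ N₀ : ℕ, ∀ N : ℕ, N₀ ≤ N →
    ∀ (a : Fin (k + 1) → ℂ) (b : ℂ), (∃ i, 1 ≤ ‖a i‖) →
      c * N ≤ ((((Finset.Icc 1 N).filter (fun n : ℕ => δ / Real.log N ≤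
        ‖∑ i : Fin (k + 1), a i * ((ordinate (n + i) : ℝ) : ℂ) - b‖)).card : ℕ) : ℝ) :=
  Pool.Agent.Lib.MP_ec260d_ntR.linear_forms k

end Pool.Agent.Results.MP_ec260d_nt.Windows
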